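import Pool.Agent.Helper23.EC.EGoals

set_option autoImplicit false

open MeasureTheory Filter Topology Set Complex

namespace Pool.Agent.Helper80.EC.E_EB3

open EC237

/-- the point `(a - i n z)/6` -/
noncomputable def tau (z : ℝ) (a n : ℤ) : ℂ := ((a:ℂ) - I * n * z) / 6

theorem tau_mem {z : ℝ} (hz : 1 ≤ z) {a n : ℤ} (h : n ≠ 0 ∨ a % 6 ≠ 0) :
    tau z a n ∈ Complex.integerComplement := by
  rw [Complex.mem_integerComplement_iff]
  rintro ⟨k, hk⟩
  have hk' : (6 * k : ℂ) = (a:ℂ) - I * n * z := by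
    rw [hk]; unfold tau; field_simp
  have him := congrArg Complex.im hk'
  have hre := congrArg Complex.re hk'
  simp at him hre
  have hz0 : z ≠ 0 := by linarith
  have hn : n = 0 := by
    rcases him with h1 | h1
    · exact_mod_cast h1
    · exact absurd h1 hz0
  rcases h with h | h
  · exact h hn
  · apply h
    have h6 : ((6 * k : ℤ) : ℝ) = (a : ℝ) := by push_cast; exact hre
    have : 6 * k = a := by exact_mod_cast h6
    omega

theorem sum_cot {f : ℤ → ℂ} {τ σ : ℂ} (h1 : τ ∈ Complex.integerComplement)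
    (h2 : σ ∈ Complex.integerComplement) (hf : ∀ l : ℤ, f l = 1 / (τ + l) + 1 / (σ - l))
    (hs : Summable f) : ∑' l : ℤ, f l =
      Real.pi * Complex.cot (Real.pi * τ) + Real.pi * Complex.cot (Real.pi * σ) := by
  have s1 : Summable (fun n : ℕ => f (n:ℤ)) := hs.comp_injective Nat.cast_injective
  have s2 : Summable (fun n : ℕ => f (-((n:ℤ) + 1))) :=
    hs.comp_injective (fun a b h => by
      have : -((a:ℤ) + 1) = -((b:ℤ) + 1) := h
      omega)
  have hS := (HasSum.of_nat_of_neg_add_one s1.hasSum s2.hasSum).tsum_eq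
  rw [hS, s1.tsum_eq_zero_add]
  have s1' : Summable (fun n : ℕ => f ((n + 1 : ℕ) : ℤ)) := (summable_nat_add_iff 1).mpr s1
  rw [add_assoc, ← s1'.tsum_add s2]
  have c1 := cot_series_rep' h1
  have c2 := cot_series_rep' h2
  have q1 := summable_cotTerm h1
  have q2 := summable_cotTerm h2
  simp only [cotTerm] at q1 q2
  have e : ∀ n : ℕ, f ((n + 1 : ℕ) : ℤ) + f (-((n:ℤ) + 1)) =
      (1 / (τ - (n + 1)) + 1 / (τ + (n + 1))) + (1 / (σ - (n + 1)) + 1 / (σ + (n + 1))) := by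
    intro n
    rw [hf, hf]
    push_cast
    have e1 : τ + -((n:ℂ) + 1) = τ - (n + 1) := by ring
    have e2 : σ - -((n:ℂ) + 1) = σ + (n + 1) := by ring
    rw [e1, e2]
    ring
  rw [tsum_congr e, q1.tsum_add q2, ← c1, ← c2]
  have e0 : f ((0:ℕ):ℤ) = 1 / τ + 1 / σ := by
    rw [hf]; simp
  rw [e0]
  ring

theorem eSg_eq (hEB1 : EB1) {z : ℝ} (hz : 1 ≤ z) {c n1 n2 m : ℤ} (h1 : n1 ≠ 0 ∨ c % 6 ≠ 0)
    (h2 : n2 ≠ 0 ∨ (m - c) % 6 ≠ 0) :
    eSg z c n1 n2 m = (Real.pi / 6 : ℝ) * Complex.cot (Real.pi * tau z c n1) +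
      (Real.pi / 6 : ℝ) * Complex.cot (Real.pi * tau z (m - c) (-n2)) := by
  have hz0 : 0 < z := by linarith
  have hs := (hEB1 z hz0 c n1 n2 m).2
  have hinj : Function.Injective (fun l : ℤ => 6 * l + c) := fun a b h => by
    have : 6 * a + c = 6 * b + c := h
    omega
  set g : ℤ → ℂ := fun m1 => if (m1 - c) % 6 = 0 then uz z n1 m1 + vz z n2 (m - m1) else 0 with hg
  have hsup : Function.support g ⊆ Set.range (fun l : ℤ => 6 * l + c) := by
    intro x hx
    by_cases h : (x - c) % 6 = 0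
    · exact ⟨(x - c) / 6, by show 6 * ((x - c) / 6) + c = x; omega⟩
    · exfalso; apply hx; rw [hg]; simp [h]
  have hre := hinj.tsum_eq hsup
  have hsum' : Summable (fun l : ℤ => g (6 * l + c)) := hs.comp_injective hinj
  have hm1 := tau_mem hz h1
  have h2' : (-n2) ≠ 0 ∨ (m - c) % 6 ≠ 0 := by
    rcases h2 with h | h
    · exact Or.inl (by omega)
    · exact Or.inr h
  have hm2 := tau_mem hz h2'
  have hval : ∀ l : ℤ, 6 * g (6 * l + c) =
      1 / (tau z c n1 + l) + 1 / (tau z (m - c) (-n2) - l) := by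
    intro l
    have hc : (6 * l + c - c) % 6 = 0 := by omega
    rw [hg]
    simp only [hc, if_true]
    have a1 : tau z c n1 + l ≠ 0 := Complex.integerComplement_add_ne_zero hm1 l
    have a2 : tau z (m - c) (-n2) - l ≠ 0 := by
      have := Complex.integerComplement_add_ne_zero hm2 (-l)
      push_cast at this
      rwa [← sub_eq_add_neg] at this
    have e1 : uz z n1 (6 * l + c) = (6 * (tau z c n1 + l))⁻¹ := by
      unfold uz tau; congr 1; push_cast; ring
    have e2 : vz z n2 (m - (6 * l + c)) = (6 * (tau z (m - c) (-n2) - l))⁻¹ := by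
      unfold vz tau; congr 1; push_cast; ring
    rw [e1, e2, mul_inv, mul_inv]
    ring
  have hfin := sum_cot hm1 hm2 hval (hsum'.mul_left 6)
  rw [tsum_mul_left] at hfin
  unfold eSg
  rw [← hre]
  have : ∑' l : ℤ, g (6 * l + c) = 1 / 6 * (6 * ∑' l : ℤ, g (6 * l + c)) := by ring
  show ∑' l : ℤ, g (6 * l + c) = _
  rw [this, hfin]
  push_cast
  ring

theorem exp_big {n : ℤ} (hn : n ≠ 0) {z : ℝ} (hz : 1 ≤ z) :
    2 ≤ Real.exp (Real.pi / 3 * |(n:ℝ)| * z) := by
  have h1 : (1:ℝ) ≤ |(n:ℝ)| := by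
    rw [← Int.cast_abs]; exact_mod_cast Int.one_le_abs hn
  have hpi := Real.pi_gt_three
  have h2 : 1 ≤ Real.pi / 3 * |(n:ℝ)| * z := by
    have : 1 ≤ Real.pi / 3 := by linarith
    have h3 : 1 ≤ Real.pi / 3 * |(n:ℝ)| := by nlinarith
    nlinarith
  have := Real.add_one_le_exp (Real.pi / 3 * |(n:ℝ)| * z)
  linarith

theorem cb {n : ℤ} (hn : n ≠ 0) {z : ℝ} (hz : 1 ≤ z) (a : ℤ) :
    ‖(Real.pi / 6 : ℝ) * Complex.cot (Real.pi * tau z a n) -
      I * (Real.pi / 6 : ℝ) * ((n.sign : ℤ) : ℂ)‖ ≤ 4 * Real.exp (-(Real.pi / 3 * |(n:ℝ)| * z)) := by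
  set E : ℂ := Complex.exp (2 * Real.pi * I * tau z a n) with hE
  have hnE : ‖E‖ = Real.exp (Real.pi / 3 * n * z) := by
    rw [hE, Complex.norm_exp]
    congr 1
    unfold tau
    have : 2 * (Real.pi:ℂ) * I * (((a:ℂ) - I * n * z) / 6) =
        ((Real.pi / 3 * n * z : ℝ) : ℂ) + ((Real.pi / 3 * a : ℝ) : ℂ) * I := by
      push_cast
      have hI : I * I = -1 := Complex.I_mul_I
      linear_combination (-(Real.pi:ℂ) / 3 * n * z) * hI
    rw [this, Complex.add_re, Complex.ofReal_re, Complex.mul_re]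
    simp
  have hbig := exp_big hn hz
  have hexp : Real.exp (-(Real.pi / 3 * |(n:ℝ)| * z)) = (Real.exp (Real.pi / 3 * |(n:ℝ)| * z))⁻¹ :=
    Real.exp_neg _
  have hcot : Complex.cot (Real.pi * tau z a n) = (E + 1) / (I * (1 - E)) :=
    Complex.cot_pi_eq_exp_ratio _
  have hpi6 : Real.pi / 6 ≤ 1 := by linarith [Real.pi_le_four]
  have hpi0 : 0 ≤ Real.pi / 6 := by positivity
  rcases lt_or_gt_of_ne hn with hneg | hpos
  · -- n < 0
    have habs : |(n:ℝ)| = -(n:ℝ) := abs_of_neg (by exact_mod_cast hneg)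
    have hEn : ‖E‖ = Real.exp (-(Real.pi / 3 * |(n:ℝ)| * z)) := by
      rw [hnE, habs]; congr 1; ring
    have hE2 : ‖E‖ ≤ 1 / 2 := by
      rw [hEn, hexp, one_div]; gcongr
    have hsub : 1 / 2 ≤ ‖1 - E‖ := by
      have := norm_sub_norm_le (1:ℂ) E
      rw [norm_one] at this; linarith
    have h1E : (1 - E) ≠ 0 := by
      intro h; rw [h, norm_zero] at hsub; linarith
    have hs : ((n.sign : ℤ) : ℂ) = -1 := by rw [Int.sign_eq_neg_one_of_neg hneg]; simp
    have key : (Real.pi / 6 : ℝ) * Complex.cot (Real.pi * tau z a n) -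
        I * (Real.pi / 6 : ℝ) * ((n.sign : ℤ) : ℂ) = ((Real.pi / 6 : ℝ) : ℂ) * (2 * E / (I * (1 - E))) := by
      rw [hcot, hs]
      have hI : I ≠ 0 := Complex.I_ne_zero
      field_simp
      have hII : I ^ 2 = -1 := Complex.I_sq
      rw [hII]; ring
    rw [key, norm_mul, norm_div, norm_mul, norm_mul, Complex.norm_I, one_mul, Complex.norm_real,
      Real.norm_of_nonneg hpi0, ← hEn]
    have h2 : ‖(2:ℂ)‖ = 2 := by simp
    rw [h2]
    calc Real.pi / 6 * (2 * ‖E‖ / ‖1 - E‖) ≤ 1 * (2 * ‖E‖ / (1 / 2)) := by gcongr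
      _ = 4 * ‖E‖ := by ring
  · have habs : |(n:ℝ)| = (n:ℝ) := abs_of_pos (by exact_mod_cast hpos)
    have hEn : ‖E‖ = Real.exp (Real.pi / 3 * |(n:ℝ)| * z) := by
      rw [hnE, habs]
    have hE2 : 2 ≤ ‖E‖ := by rw [hEn]; exact hbig
    have hsub : ‖E‖ / 2 ≤ ‖1 - E‖ := by
      have := norm_sub_norm_le E (1:ℂ)
      rw [norm_one, norm_sub_rev] at this; linarith
    have h1E : (1 - E) ≠ 0 := by
      intro h; rw [h, norm_zero] at hsub; linarith
    have hs : ((n.sign : ℤ) : ℂ) = 1 := by rw [Int.sign_eq_one_of_pos hpos]; simp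
    have key : (Real.pi / 6 : ℝ) * Complex.cot (Real.pi * tau z a n) -
        I * (Real.pi / 6 : ℝ) * ((n.sign : ℤ) : ℂ) = ((Real.pi / 6 : ℝ) : ℂ) * (2 / (I * (1 - E))) := by
      rw [hcot, hs]
      have hI : I ≠ 0 := Complex.I_ne_zero
      field_simp
      have hII : I ^ 2 = -1 := Complex.I_sq
      rw [hII]; ring
    rw [key, norm_mul, norm_div, norm_mul, Complex.norm_I, one_mul, Complex.norm_real,
      Real.norm_of_nonneg hpi0, hexp, ← hEn]
    have h2 : ‖(2:ℂ)‖ = 2 := by simp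
    rw [h2]
    have hE0 : 0 < ‖E‖ := by linarith
    calc Real.pi / 6 * (2 / ‖1 - E‖) ≤ 1 * (2 / (‖E‖ / 2)) := by gcongr
      _ = 4 * ‖E‖⁻¹ := by field_simp; norm_num

theorem partU {z : ℝ} (hz : 1 ≤ z) (a n : ℤ) :
    ‖(Real.pi / 6 : ℝ) * Complex.cot (Real.pi * tau z a n) - sU a n‖ ≤ 4 * ewt z n := by
  unfold sU ewt
  by_cases hn : n = 0
  · subst hn
    simp only [ne_eq, not_true_eq_false, if_false, if_true, mul_zero]
    refine le_of_eq ?_
    rw [norm_eq_zero, sub_eq_zero]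
    have : (Real.pi:ℂ) * tau z a 0 = ((Real.pi * a / 6 : ℝ) : ℂ) := by
      unfold tau; push_cast; ring
    rw [this, Complex.cot]
    push_cast
    ring
  · rw [if_pos hn, if_neg hn]
    exact cb hn hz a

theorem partV {z : ℝ} (hz : 1 ≤ z) (a n : ℤ) :
    ‖(Real.pi / 6 : ℝ) * Complex.cot (Real.pi * tau z a (-n)) - sV a n‖ ≤ 4 * ewt z n := by
  have h := partU hz a (-n)
  have h1 : sU a (-n) = sV a n := by
    unfold sU sV
    by_cases hn : n = 0
    · subst hn; simp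
    · rw [if_pos hn, if_pos (by omega : -n ≠ 0), Int.sign_neg]
      push_cast
      ring
  have h2 : ewt z (-n) = ewt z n := by
    unfold ewt
    by_cases hn : n = 0
    · subst hn; simp
    · rw [if_neg hn, if_neg (by omega : -n ≠ 0)]
      push_cast
      rw [abs_neg]
  rwa [h1, h2] at h

theorem thm (hEB1 : EB1) : EB3 := by
  refine ⟨4, by norm_num, fun z hz c n1 n2 m h1 h2 => ?_⟩
  rw [eSg_eq hEB1 hz h1 h2]
  have a1 := partU hz c n1
  have a2 := partV hz (m - c) n2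
  have e : (Real.pi / 6 : ℝ) * Complex.cot (Real.pi * tau z c n1) +
      (Real.pi / 6 : ℝ) * Complex.cot (Real.pi * tau z (m - c) (-n2)) -
      (sU c n1 + sV (m - c) n2) =
      ((Real.pi / 6 : ℝ) * Complex.cot (Real.pi * tau z c n1) - sU c n1) +
      ((Real.pi / 6 : ℝ) * Complex.cot (Real.pi * tau z (m - c) (-n2)) - sV (m - c) n2) := by ring
  rw [e, mul_add]
  exact (norm_add_le _ _).trans (add_le_add a1 a2)

end Pool.Agent.Helper80.EC.E_EB3
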